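import Mathlib

set_option autoImplicit false

namespace Pool.Agent.Results.MP_6bfc9e_al.NoetherianLayers

variable {R : Type*} [Ring R] {M : Type*} [AddCommGroup M] [Module R M]

/-- Graphs of partial homomorphisms from `M` to `M`. -/
def Fn (G : Submodule R (M × M)) : Prop := ∀ y, ((0 : M), y) ∈ G → y = 0

lemma Fn.uniq {G : Submodule R (M × M)} (h : Fn G) {x y z : M} (h1 : (x, y) ∈ G)
    (h2 : (x, z) ∈ G) : y = z := by
  have := G.sub_mem h1 h2
  simp only [Prod.mk_sub_mk, sub_self] at this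
  exact sub_eq_zero.1 (h _ this)

lemma exists_max (G : Submodule R (M × M)) (h : Fn G) : ∃ G', G ≤ G' ∧ Maximal Fn G' := by
  refine zorn_le_nonempty₀ {G : Submodule R (M × M) | Fn G} ?_ G h
  intro c hc hcc y hy
  refine ⟨sSup c, ?_, fun z hz => le_sSup hz⟩
  intro z hz
  rw [Submodule.mem_sSup_of_directed ⟨y, hy⟩ hcc.directedOn] at hz
  obtain ⟨K, hK, hzK⟩ := hz
  exact hc hK z hzK

lemma ext_one {G : Submodule R (M × M)} (h : Maximal Fn G) (e w : M)
    (hw : ∀ (r : R) (y : M), (r • e, y) ∈ G → y = r • w) : (e, w) ∈ G := by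
  have hF : Fn (G ⊔ Submodule.span R {(e, w)}) := by
    intro y hy
    rw [Submodule.mem_sup] at hy
    obtain ⟨⟨a, b⟩, hab, z, hz, hsum⟩ := hy
    rw [Submodule.mem_span_singleton] at hz
    obtain ⟨r, rfl⟩ := hz
    simp only [Prod.smul_mk, Prod.mk_add_mk, Prod.mk.injEq] at hsum
    obtain ⟨h1, h2⟩ := hsum
    have ha : a = (-r) • e := by rw [neg_smul]; exact eq_neg_of_add_eq_zero_left h1
    rw [ha] at hab
    have hb := hw _ _ hab
    rw [← h2, hb, neg_smul]; simp
  have := h.2 hF le_sup_left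
  exact this ((le_sup_right : _ ≤ G ⊔ Submodule.span R {(e, w)})
    (Submodule.mem_span_singleton_self _))

/-- Elements on which every maximal partial homomorphism is defined. -/
def D (R M : Type*) [Ring R] [AddCommGroup M] [Module R M] : Submodule R M :=
  ⨅ (G : Submodule R (M × M)) (_ : Maximal Fn G), G.map (LinearMap.fst R M M)

lemma mem_D {m : M} : m ∈ D R M ↔ ∀ G : Submodule R (M × M), Maximal Fn G → ∃ y, (m, y) ∈ G := by
  simp only [D, Submodule.mem_iInf, Submodule.mem_map, LinearMap.fst_apply, Prod.exists]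
  constructor
  · intro h G hG
    obtain ⟨a, b, hab, rfl⟩ := h G hG
    exact ⟨b, hab⟩
  · intro h G hG
    obtain ⟨y, hy⟩ := h G hG
    exact ⟨m, y, hy, rfl⟩

/-- Composition of graphs. -/
def cmp (G G' : Submodule R (M × M)) : Submodule R (M × M) where
  carrier := {p | ∃ y, (p.1, y) ∈ G ∧ (y, p.2) ∈ G'}
  add_mem' := by
    rintro a b ⟨y, h1, h2⟩ ⟨z, h3, h4⟩
    exact ⟨y + z, G.add_mem h1 h3, G'.add_mem h2 h4⟩
  zero_mem' := ⟨0, G.zero_mem, G'.zero_mem⟩
  smul_mem' := by
    rintro r a ⟨y, h1, h2⟩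
    exact ⟨r • y, G.smul_mem r h1, G'.smul_mem r h2⟩

lemma D_stable {G : Submodule R (M × M)} (h : Maximal Fn G) {d e : M} (hd : d ∈ D R M)
    (hde : (d, e) ∈ G) : e ∈ D R M := by
  rw [mem_D]
  intro G' hG'
  have hC : Fn (cmp G G') := by
    rintro z ⟨y, h1, h2⟩
    have hy := h.1 y h1
    rw [hy] at h2
    exact hG'.1 z h2
  obtain ⟨G'', hle, hmax⟩ := exists_max _ hC
  obtain ⟨w, hw⟩ := mem_D.1 hd G'' hmax
  refine ⟨w, ext_one hG' e w ?_⟩
  intro r y hy
  have h1 : (r • d, y) ∈ G'' := hle ⟨r • e, G.smul_mem r hde, hy⟩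
  exact hmax.1.uniq h1 (G''.smul_mem r hw)

/-- Every endomorphism of a submodule extends: transport to graphs. -/
lemma wi_graph
    (hWI : ∀ (N : Submodule R M) (f : N →ₗ[R] N),
      ∃ g : M →ₗ[R] M, ∀ x : N, g (x : M) = ((f x : N) : M))
    {G : Submodule R (M × M)} (hG : Fn G) (Y : Submodule R M)
    (hY : ∀ y ∈ Y, ∃ z ∈ Y, (y, z) ∈ G) : ∃ t : M →ₗ[R] M, ∀ y ∈ Y, (y, t y) ∈ G := by
  choose! φ hφY hφG using hY
  let f : Y →ₗ[R] Y :=
    { toFun := fun y => ⟨φ y, hφY y y.2⟩
      map_add' := by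
        intro a b
        apply Subtype.ext
        exact hG.uniq (hφG _ (Y.add_mem a.2 b.2)) (G.add_mem (hφG _ a.2) (hφG _ b.2))
      map_smul' := by
        intro r a
        apply Subtype.ext
        exact hG.uniq (hφG _ (Y.smul_mem r a.2)) (G.smul_mem r (hφG _ a.2)) }
  obtain ⟨t, ht⟩ := hWI Y f
  refine ⟨t, fun y hy => ?_⟩
  have := ht ⟨y, hy⟩
  simp only [f, LinearMap.coe_mk, AddHom.coe_mk] at this
  rw [this]
  exact hφG y hy

/-- The graph of `G` minus the endomorphism `t`. -/
def shear (G : Submodule R (M × M)) (t : M →ₗ[R] M) : Submodule R (M × M) where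
  carrier := {p | (p.1, p.2 + t p.1) ∈ G}
  add_mem' := by
    intro a b ha hb
    have := G.add_mem ha hb
    simp only [Prod.mk_add_mk] at this
    simp only [Set.mem_ofPred_eq, Prod.fst_add, Prod.snd_add, map_add]
    convert this using 2
    abel
  zero_mem' := by
    simp only [Set.mem_ofPred_eq, Prod.fst_zero, Prod.snd_zero, map_zero, add_zero]
    exact G.zero_mem
  smul_mem' := by
    intro r a ha
    have := G.smul_mem r ha
    simp only [Prod.smul_mk] at this
    simp only [Set.mem_ofPred_eq, Prod.smul_fst, Prod.smul_snd, map_smul]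
    convert this using 2
    rw [smul_add]

lemma mem_shear {G : Submodule R (M × M)} {t : M →ₗ[R] M} {a b : M} :
    (a, b) ∈ shear G t ↔ (a, b + t a) ∈ G := Iff.rfl

/-- The submodule on which `G` and `t` agree. -/
def agr (G : Submodule R (M × M)) (t : M →ₗ[R] M) : Submodule R M where
  carrier := {x | (x, t x) ∈ G}
  add_mem' := by
    intro a b ha hb
    simp only [Set.mem_ofPred_eq, map_add]
    exact G.add_mem ha hb
  zero_mem' := by
    simp only [Set.mem_ofPred_eq, map_zero]
    exact G.zero_mem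
  smul_mem' := by
    intro r a ha
    simp only [Set.mem_ofPred_eq, map_smul]
    exact G.smul_mem r ha

lemma mem_agr {G : Submodule R (M × M)} {t : M →ₗ[R] M} {a : M} :
    a ∈ agr G t ↔ (a, t a) ∈ G := Iff.rfl

lemma soc_le_D : sSup {S : Submodule R M | IsSimpleModule R S} ≤ D R M := by
  apply sSup_le
  intro S hS m hm
  rw [mem_D]
  intro G hG
  by_contra hcon
  have h0 : ¬ ∀ (r : R) (y : M), (r • m, y) ∈ G → y = r • (0 : M) := by
    intro h
    exact hcon ⟨0, ext_one hG m 0 h⟩
  push Not at h0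
  obtain ⟨r, y, hry, hy⟩ := h0
  rw [smul_zero] at hy
  have hrm : r • m ≠ 0 := by
    intro h
    rw [h] at hry
    exact hy (hG.1 y hry)
  have hS' : IsSimpleModule R S := hS
  have hne : (⟨r • m, S.smul_mem r hm⟩ : S) ≠ 0 := by
    intro h
    exact hrm (congrArg Subtype.val h)
  have htop := IsSimpleModule.span_singleton_eq_top R hne
  have : (⟨m, hm⟩ : S) ∈ Submodule.span R {(⟨r • m, S.smul_mem r hm⟩ : S)} := by
    rw [htop]; trivial
  rw [Submodule.mem_span_singleton] at this
  obtain ⟨s, hs⟩ := this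
  have hs' : s • r • m = m := congrArg Subtype.val hs
  apply hcon
  refine ⟨s • y, ?_⟩
  have := G.smul_mem s hry
  simp only [Prod.smul_mk] at this
  rwa [hs'] at this

/-- Let `M` be a weakly injective module with essential socle. If for every proper fully invariant
submodule `F` containing the socle the module `M / F` has a nonzero noetherian submodule, then `M`
is quasi-injective. -/
theorem result : ∀ (R : Type*) [Ring R] (M : Type*) [AddCommGroup M] [Module R M],
    (∀ (N : Submodule R M) (f : N →ₗ[R] N),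
      ∃ g : M →ₗ[R] M, ∀ x : N, g (x : M) = ((f x : N) : M)) →
    (∀ K : Submodule R M, K ≠ ⊥ →
      K ⊓ sSup {S : Submodule R M | IsSimpleModule R S} ≠ ⊥) →
    (∀ F : Submodule R M, F ≠ ⊤ → sSup {S : Submodule R M | IsSimpleModule R S} ≤ F →
      (∀ g : M →ₗ[R] M, F.map g ≤ F) →
      ∃ X : Submodule R (M ⧸ F), X ≠ ⊥ ∧ IsNoetherian R X) →
    ∀ (N : Submodule R M) (f : N →ₗ[R] M),
      ∃ g : M →ₗ[R] M, ∀ x : N, g (x : M) = f x := by
  intro R _ M _ _ hWI hsoc hNoe
  have hDtop : D R M = ⊤ := by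
    by_contra hD
    have hinv : ∀ g : M →ₗ[R] M, (D R M).map g ≤ D R M := by
      rintro g _ ⟨d, hd, rfl⟩
      have hgF : Fn (LinearMap.graph g) := by
        intro y hy
        rw [LinearMap.mem_graph_iff] at hy
        simpa using hy
      have hgmax : Maximal Fn (LinearMap.graph g) := by
        refine ⟨hgF, ?_⟩
        rintro G' hG' hle ⟨a, b⟩ hab
        have h1 : (a, g a) ∈ G' := hle (by rw [LinearMap.mem_graph_iff])
        rw [LinearMap.mem_graph_iff]
        exact hG'.uniq hab h1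
      exact D_stable hgmax hd (by rw [LinearMap.mem_graph_iff])
    obtain ⟨X, hX, hXn⟩ := hNoe (D R M) hD soc_le_D hinv
    apply hX
    rw [eq_bot_iff]
    intro q hq
    obtain ⟨m, rfl⟩ := (D R M).mkQ_surjective q
    rw [Submodule.mem_bot]
    rw [Submodule.mkQ_apply, Submodule.Quotient.mk_eq_zero, mem_D]
    intro G hG
    obtain ⟨t₀, ht₀⟩ := wi_graph hWI hG.1 (D R M) (by
      intro d hd
      obtain ⟨e, he⟩ := mem_D.1 hd G hG
      exact ⟨e, D_stable hG hd he, he⟩)
    let K : (M →ₗ[R] M) → Submodule R X := fun t =>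
      ((agr G t).map (D R M).mkQ).comap X.subtype
    obtain ⟨K₀, ⟨t, ht, rfl⟩, hKmax⟩ := set_has_maximal_iff_noetherian.2 hXn
      {K' | ∃ t : M →ₗ[R] M, D R M ≤ agr G t ∧ K' = K t} ⟨K t₀, t₀, ht₀, rfl⟩
    by_cases hmt : m ∈ agr G t
    · exact ⟨t m, hmt⟩
    exfalso
    have h1 : ¬ ∀ (r : R) (y : M), (r • m, y) ∈ G → y = r • t m := by
      intro h
      exact hmt (ext_one hG m (t m) h)
    push Not at h1
    obtain ⟨r, y, hry, hy⟩ := h1
    have hv : Submodule.span R {y - r • t m} ≠ ⊥ := by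
      rw [Ne, Submodule.span_singleton_eq_bot]
      exact sub_ne_zero.2 hy
    have h2 := hsoc _ hv
    rw [Submodule.ne_bot_iff] at h2
    obtain ⟨v, ⟨hv1, hv2⟩, hv0⟩ := h2
    obtain ⟨s, hs⟩ := Submodule.mem_span_singleton.1 hv1
    have hxG : (s • r • m, s • y) ∈ G := G.smul_mem s hry
    have hvD : v ∈ D R M := soc_le_D hv2
    have hsy : s • y = v + t (s • r • m) := by
      rw [← hs, map_smul, map_smul, smul_sub]; abel
    obtain ⟨t', ht'⟩ := wi_graph hWI (G := shear G t) (by
        intro z hz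
        rw [mem_shear, map_zero, add_zero] at hz
        exact hG.1 z hz)
      (agr G t ⊔ Submodule.span R {s • r • m}) (by
        intro a ha
        rw [Submodule.mem_sup] at ha
        obtain ⟨b, hb, c, hc, rfl⟩ := ha
        obtain ⟨u, rfl⟩ := Submodule.mem_span_singleton.1 hc
        refine ⟨u • v, ?_, ?_⟩
        · exact (le_sup_left : agr G t ≤ _) (ht (Submodule.smul_mem _ u hvD))
        · rw [mem_shear]
          have h3 := G.add_mem (mem_agr.1 hb) (G.smul_mem u hxG)
          simp only [Prod.smul_mk, Prod.mk_add_mk] at h3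
          rw [hsy] at h3
          convert h3 using 2
          rw [map_add, LinearMap.map_smul, smul_add]; abel)
    have hle : agr G t ⊔ Submodule.span R {s • r • m} ≤ agr G (t' + t) := by
      intro a ha
      rw [mem_agr, LinearMap.add_apply]
      exact mem_shear.1 (ht' a ha)
    have hD2 : D R M ≤ agr G (t' + t) := ht.trans (le_sup_left.trans hle)
    have hKle : K t ≤ K (t' + t) :=
      Submodule.comap_mono (Submodule.map_mono (le_sup_left.trans hle))
    have hKeq : ¬ (K t < K (t' + t)) := hKmax (K (t' + t)) ⟨t' + t, hD2, rfl⟩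
    have hxX : (D R M).mkQ (s • r • m) ∈ X := by
      rw [map_smul, map_smul]
      exact X.smul_mem _ (X.smul_mem _ hq)
    have hx1 : (⟨(D R M).mkQ (s • r • m), hxX⟩ : X) ∈ K (t' + t) := by
      refine ⟨s • r • m, ?_, rfl⟩
      exact hle ((le_sup_right : Submodule.span R {s • r • m} ≤ _)
        (Submodule.mem_span_singleton_self _))
    have hx2 : (⟨(D R M).mkQ (s • r • m), hxX⟩ : X) ∈ K t := by
      by_contra hx2
      exact hKeq (lt_of_le_of_ne hKle (fun h => hx2 (h ▸ hx1)))
    obtain ⟨a, ha, hax⟩ := hx2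
    have hsub : s • r • m - a ∈ D R M := by
      rw [← Submodule.Quotient.mk_eq_zero, Submodule.Quotient.mk_sub, sub_eq_zero]
      exact hax.symm
    have hxt : s • r • m ∈ agr G t := by
      have := (agr G t).add_mem (ht hsub) ha
      simpa using this
    have := hG.1.uniq hxG (mem_agr.1 hxt)
    rw [hsy] at this
    exact hv0 (by simpa using this)
  intro N f
  let Gf : Submodule R (M × M) := (LinearMap.range (N.subtype.prod f))
  have hGf : Fn Gf := by
    rintro y ⟨x, hx⟩
    have h1 : (x : M) = 0 := congrArg Prod.fst hx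
    have h2 : f x = y := congrArg Prod.snd hx
    have : x = 0 := Subtype.ext h1
    rw [← h2, this, map_zero]
  obtain ⟨G, hle, hmax⟩ := exists_max Gf hGf
  obtain ⟨g, hg⟩ := wi_graph hWI hmax.1 ⊤ (by
    intro y _
    obtain ⟨z, hz⟩ := mem_D.1 (hDtop ▸ Submodule.mem_top : y ∈ D R M) G hmax
    exact ⟨z, trivial, hz⟩)
  refine ⟨g, fun x => ?_⟩
  exact hmax.1.uniq (hg x trivial) (hle ⟨x, rfl⟩)

end Pool.Agent.Results.MP_6bfc9e_al.NoetherianLayers
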